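import Pool.Agent.Helper764.EWUpper

set_option autoImplicit false
open MeasureTheory Filter Topology Set
open scoped ENNReal
open Pool.Agent.Helper764.EW

namespace Pool.Agent.Results.MP_31d543_pr.GaussianRate

/-- `E W_p^p(μ_n, μ)` for `n` independent standard Gaussian points in `ℝ^d`. -/
noncomputable def expCost (d : ℕ) (p : ℝ) (n : ℕ) : ℝ≥0∞ :=
  ∫⁻ x, Wpp p (emp x) (gauss d) ∂(Measure.pi fun _ : Fin n => gauss d)

/-- The rate `(log n)^(d - 1 - p/2) / n`. -/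
noncomputable def rate (d : ℕ) (p : ℝ) (n : ℕ) : ℝ :=
  (Real.log n) ^ ((d : ℝ) - 1 - p / 2) / n

/-- Sanity: `gauss d` is Mathlib's standard Gaussian measure, in particular a probability. -/
theorem gauss_eq_stdGaussian (d : ℕ) : gauss d = ProbabilityTheory.stdGaussian (E d) :=
  gauss_std d

theorem result (d : ℕ) (hd : 2 ≤ d) (p : ℝ) (hp : (d : ℝ) < p) :
    IsProbabilityMeasure (gauss d) ∧
    (∀ n : ℕ, Measurable fun x : Fin n → E d => Wpp p (emp x) (gauss d)) ∧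
    ∃ c C : ℝ, 0 < c ∧ 0 < C ∧ ∀ᶠ n : ℕ in atTop,
      ENNReal.ofReal (c * rate d p n) ≤ expCost d p n ∧
      expCost d p n ≤ ENNReal.ofReal (C * rate d p n) := by
  obtain ⟨m, rfl⟩ : ∃ m, d = m + 1 := ⟨d - 1, by omega⟩
  have hm : 1 ≤ m := by omega
  have hm1 : (1 : ℝ) ≤ m := by exact_mod_cast hm
  have h2 : 2 < p := by push_cast at hp; linarith
  have h1 : 1 ≤ p := by linarith
  refine ⟨gauss_prob _, fun n => measurable_Wpp_emp h1 _, ?_⟩
  obtain ⟨c, hc, hlow⟩ := lower_bound m p (by linarith)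
  obtain ⟨C, hC, hup⟩ := upper_G m hm p hp
  refine ⟨c, C, hc, hC, ?_⟩
  filter_upwards [hlow, hup, eventually_ge_atTop 1] with n hl hu hn
  have hn0 : (0 : ℝ) < n := by exact_mod_cast hn
  have hr : ((m + 1 : ℕ) : ℝ) - 1 - p / 2 = (m : ℝ) - p / 2 := by push_cast; ring
  constructor
  · rw [rate, hr, ← mul_div_assoc]
    exact hl
  · have hne : (n : ℝ≥0∞) ≠ 0 := by simpa using (by omega : n ≠ 0)
    have hnt : (n : ℝ≥0∞) ≠ ⊤ := ENNReal.natCast_ne_top n
    rw [rate, hr, ← mul_div_assoc, ENNReal.ofReal_div_of_pos hn0, ENNReal.ofReal_natCast,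
      ENNReal.le_div_iff_mul_le (Or.inl hne) (Or.inl hnt), mul_comm]
    exact hu

end Pool.Agent.Results.MP_31d543_pr.GaussianRate
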